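import Mathlib

/-! Coalescing random walks form a uniformly ergodic, not exponentially ergodic PCA. -/

open MeasureTheory Set Filter Topology

namespace Pool.Agent.Results.MP_37af32_pr.Coalescing

/-- the alphabet -/
abbrev A : Type := Bool × Bool

/-- the Markov operator of the PCA with neighbourhood `N` and local rule `f` -/
noncomputable def step (N : Finset ℤ) (f : (N → A) → PMF A) (μ : Measure (ℤ → A)) :
    Measure (ℤ → A) :=
  μ.bind fun x => Measure.infinitePi fun i => (f fun n => x (i + n)).toMeasure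

/-- cylinder sets -/
def cyl (D : Finset ℤ) (w : ℤ → A) : Set (ℤ → A) := {x | ∀ i ∈ D, x i = w i}

/-- next particle bit -/
def g (x : ℤ → A) (i : ℤ) : Bool := ((x i).1 && !(x i).2) || ((x (i + -1)).1 && (x (i + -1)).2)

/-- one move -/
def T (p : (ℤ → A) × (ℤ → Bool)) (i : ℤ) : A := (g p.1 i, p.2 i)

/-- fair coins -/
noncomputable def C : Measure (ℤ → Bool) :=
  Measure.infinitePi fun _ => (PMF.uniformOfFintype Bool).toMeasure

instance : IsProbabilityMeasure C := by unfold C; infer_instance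

lemma g_meas (i : ℤ) : Measurable fun x => g x i :=
  (measurable_of_finite fun p : A × A => (p.1.1 && !p.1.2) || (p.2.1 && p.2.2)).comp
    (f := fun x : ℤ → A => (x i, x (i + -1))) (by fun_prop)

lemma T_meas : Measurable T := measurable_pi_lambda _ fun i =>
  ((g_meas i).comp measurable_fst).prodMk ((measurable_pi_apply i).comp measurable_snd)

/-- the operator on probability measures -/
noncomputable def Φ (μ : ProbabilityMeasure (ℤ → A)) : ProbabilityMeasure (ℤ → A) :=
  ⟨((μ : Measure (ℤ → A)).prod C).map T, Measure.isProbabilityMeasure_map T_meas.aemeasurable⟩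

/-- a particle lands in `[l, r)` -/
def S (l r : ℤ) : Set (ℤ → A) := {x | ∃ j, l ≤ j ∧ j < r ∧ g x j = true}

lemma S_meas (l r : ℤ) : MeasurableSet (S l r) := by
  have := g_meas
  unfold S
  measurability

lemma key (μ : ProbabilityMeasure (ℤ → A)) {l r : ℤ} (h : l < r) :
    (Φ μ : Measure (ℤ → A)).real (S l r) = ((μ : Measure (ℤ → A)).real (S (l - 1) (r - 1)) +
      (μ : Measure (ℤ → A)).real (S (l - 1) r) + ((μ : Measure (ℤ → A)).real (S l (r - 1)) +
        (μ : Measure (ℤ → A)).real (S l r))) / 4 := by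
  have h1 : ∀ c : ℤ → Bool, (fun x => (x, c)) ⁻¹' (T ⁻¹' S l r) =
      S (l - (c (l - 1)).toInt) (r - (c (r - 1)).toInt) := fun c => by
    have h2 : ∀ i, (c i = true ∧ (c i).toInt = 1) ∨ (c i = false ∧ (c i).toInt = 0) := fun i => by
      cases c i <;> simp
    ext x
    simp only [S, mem_preimage, mem_ofPred_eq]
    constructor
    · rintro ⟨j, h3, h4, h5⟩
      simp only [g.eq_def (T _), T, Bool.or_eq_true, Bool.and_eq_true, Bool.not_eq_true'] at h5
      rcases h5 with h5 | h5
      · refine ⟨j, by rcases h2 (l - 1) with e | e <;> omega, ?_, h5.1⟩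
        by_cases e : j = r - 1
        · rw [← e, h5.2]; simpa using h4
        · rcases h2 (r - 1) with e | e <;> omega
      · refine ⟨_, ?_, by rcases h2 (r - 1) with e | e <;> omega, h5.1⟩
        by_cases e : j + -1 = l - 1
        · rw [← e, h5.2]; simp; omega
        · rcases h2 (l - 1) with e | e <;> omega
    · rintro ⟨j, h3, h4, h5⟩
      rcases h2 j with e | e
      · refine ⟨j + 1, by rcases h2 (l - 1) with e | e <;> omega, ?_, by
          simp [g.eq_def (T _), T, h5, e.1]⟩
        by_cases e' : j = r - 1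
        · rw [← e', e.2] at h4; omega
        · rcases h2 (r - 1) with e | e <;> omega
      · refine ⟨j, ?_, by rcases h2 (r - 1) with e | e <;> omega, by
          simp [g.eq_def (T _), T, h5, e.1]⟩
        by_cases e' : j = l - 1
        · rw [← e', e.2] at h3; omega
        · rcases h2 (l - 1) with e | e <;> omega
  have hp : Measurable fun c : ℤ → Bool => (c (l - 1), c (r - 1)) := by fun_prop
  have h3 : ∀ y, (C.map fun c : ℤ → Bool => (c (l - 1), c (r - 1))) {y} = 4⁻¹ := fun y => by
    have h4 : l - 1 ≠ r - 1 := by omega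
    rw [Measure.map_apply hp (.singleton _), show (fun c : ℤ → Bool => (c (l - 1), c (r - 1))) ⁻¹'
      {y} = Set.pi ({l - 1, r - 1} : Finset ℤ) fun i => {if i = l - 1 then y.1 else y.2} by
        ext c; simp [h4.symm, Prod.ext_iff], C, Measure.infinitePi_pi _ fun _ _ => .singleton _,
      Finset.prod_pair h4, show (4 : ENNReal) = 2 * 2 by norm_num,
      ENNReal.mul_inv (by simp) (by simp)]
    simp [PMF.uniformOfFintype_apply]
  have h4 := lintegral_map (μ := C) (measurable_of_finite fun y : Bool × Bool =>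
    (μ : Measure (ℤ → A)) (S (l - y.1.toInt) (r - y.2.toInt))) hp
  simp only [Measure.real, Φ, ProbabilityMeasure.coe_mk]
  rw [Measure.map_apply T_meas (S_meas l r), Measure.prod_apply_symm (T_meas (S_meas l r))]
  simp only [h1]
  rw [← h4, lintegral_fintype]
  simp only [h3, ← Finset.sum_mul, Fintype.sum_prod_type, Fintype.sum_bool, Bool.toInt_true,
    Bool.toInt_false, sub_zero]
  rw [ENNReal.toReal_mul, ENNReal.toReal_add (by finiteness) (by finiteness),
    ENNReal.toReal_add (by finiteness) (by finiteness),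
    ENNReal.toReal_add (by finiteness) (by finiteness), div_eq_mul_inv]
  simp

/-- survival probability of a lazy walk killed at zero -/
noncomputable def U : ℕ → ℕ → ℝ
  | _, 0 => 0
  | 0, _ + 1 => 1
  | t + 1, k + 1 => (U t (k + 1) + U t (k + 2) + (U t k + U t (k + 1))) / 4

lemma U_lim : Tendsto (fun t => U t 1) atTop (𝓝 0) := by
  have h0 : ∀ t k, 0 ≤ U t k := fun t => by
    induction t with
    | zero => rintro (_ | k) <;> simp [U]
    | succ t ih => rintro (_ | k) <;> simp only [U, le_refl]; linarith [ih k, ih (k + 1), ih (k + 2)]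
  have h1 : ∀ t k, U (t + 1) k ≤ U t k := fun t => by
    induction t with
    | zero => rintro (_ | _ | k) <;> norm_num [U]
    | succ t ih =>
      rintro (_ | k)
      · simp [U]
      · linarith [ih k, ih (k + 1), ih (k + 2), U.eq_3 t k, U.eq_3 (t + 1) k]
  have h2 : ∀ k, Antitone fun t => U t k := fun k => antitone_nat_of_succ_le fun t => h1 t k
  have h3 : ∀ k, Tendsto (fun t => U t k) atTop (𝓝 (⨅ t, U t k)) := fun k =>
    tendsto_atTop_ciInf (h2 k) ⟨0, by rintro _ ⟨t, rfl⟩; exact h0 t k⟩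
  generalize hL : (fun k => ⨅ t, U t k) = L
  replace h3 : ∀ k, Tendsto (fun t => U t k) atTop (𝓝 (L k)) := hL ▸ h3
  have h4 : ∀ k, L (k + 1) = (L (k + 1) + L (k + 2) + (L k + L (k + 1))) / 4 := fun k =>
    tendsto_nhds_unique ((h3 (k + 1)).comp (tendsto_add_atTop_nat 1))
      ((((h3 _).add (h3 _)).add ((h3 _).add (h3 _))).div_const 4)
  have h5 : ∀ k : ℕ, L k = k * L 1 ∧ L (k + 1) = (k + 1) * L 1 := fun k => by
    induction k with
    | zero => simpa using tendsto_nhds_unique (h3 0) (by simp [U])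
    | succ k ih => exact ⟨by simpa using ih.2, by push_cast; linarith [h4 k, ih.1, ih.2]⟩
  have h6 : L 1 = 0 := le_antisymm (by
    by_contra! h
    obtain ⟨k, hk⟩ := exists_nat_gt (1 / L 1)
    have h7 : L (k + 1) ≤ 1 := le_of_tendsto' (h3 _) fun t => h2 (k + 1) t.zero_le
    rw [div_lt_iff₀ h] at hk
    linarith [(h5 k).2]) (ge_of_tendsto' (h3 1) fun t => h0 t 1)
  exact h6 ▸ h3 1

lemma S_self (l : ℤ) : S l (l + (0 : ℕ)) = ∅ :=
  eq_empty_of_forall_notMem fun _ ⟨_, h1, h2, _⟩ => by omega

lemma key' (μ : ProbabilityMeasure (ℤ → A)) (l : ℤ) (k : ℕ) :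
    (Φ μ : Measure (ℤ → A)).real (S l (l + (k + 1 : ℕ))) = ((μ : Measure (ℤ → A)).real
      (S (l - 1) (l - 1 + (k + 1 : ℕ))) + (μ : Measure (ℤ → A)).real (S (l - 1) (l - 1 + (k + 2 : ℕ)))
        + ((μ : Measure (ℤ → A)).real (S l (l + k)) +
          (μ : Measure (ℤ → A)).real (S l (l + (k + 1 : ℕ))))) / 4 := by
  rw [key μ (by omega)]
  congr 5 <;> omega

lemma upper (μ : ProbabilityMeasure (ℤ → A)) (t k : ℕ) (l : ℤ) :
    (Φ^[t] μ : Measure (ℤ → A)).real (S l (l + k)) ≤ U t k := by
  induction t generalizing k l with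
  | zero =>
    rcases k with _ | k
    · rw [S_self]; simp [U]
    · exact measureReal_le_one
  | succ t ih =>
    rcases k with _ | k
    · rw [S_self]; simp [U]
    · rw [Function.iterate_succ_apply', key', U]
      linarith [ih k l, ih (k + 1) l, ih (k + 1) (l - 1), ih (k + 2) (l - 1)]

lemma lower (t k : ℕ) (l : ℤ) : min 1 (k / (t + 1) : ℝ) ≤
    (Φ^[t] (diracProba fun _ => (true, false)) : Measure (ℤ → A)).real (S l (l + k)) := by
  induction t generalizing k l with
  | zero =>
    rcases k with _ | k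
    · simp
    · refine (min_le_left _ _).trans_eq ?_
      simp only [Function.iterate_zero, id, diracProba, ProbabilityMeasure.coe_mk, Measure.real]
      rw [Measure.dirac_apply_of_mem (by exact ⟨l, le_rfl, by omega, rfl⟩), ENNReal.toReal_one]
  | succ t ih =>
    rcases k with _ | k
    · simp
    · rw [Function.iterate_succ_apply', key']
      refine le_trans ?_ (div_le_div_of_nonneg_right (add_le_add (add_le_add (ih _ _) (ih _ _))
        (add_le_add (ih _ _) (ih _ _))) (by norm_num))
      have h0 : (0 : ℝ) < t + 1 := by positivity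
      push_cast
      rcases lt_trichotomy k t with h | rfl | h
      · have h1 : (k : ℝ) + 1 ≤ t := by exact_mod_cast h
        rw [min_eq_right ((div_le_one h0).mpr (by linarith) : ((k : ℝ) + 1) / _ ≤ 1),
          min_eq_right ((div_le_one h0).mpr (by linarith) : ((k : ℝ) + 2) / _ ≤ 1),
          min_eq_right ((div_le_one h0).mpr (by linarith) : (k : ℝ) / _ ≤ 1)]
        refine (min_le_right _ _).trans ((div_le_div_of_nonneg_left (by positivity) h0
          (by linarith)).trans_eq (by ring))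
      · rw [div_self h0.ne', min_self, min_eq_left ((one_le_div h0).mpr (by linarith) :
          1 ≤ ((k : ℝ) + 2) / _), min_eq_right ((div_le_one h0).mpr (by linarith) : (k : ℝ) / _ ≤ 1)]
        refine (min_le_right _ _).trans ?_
        rw [div_le_div_iff₀ (by positivity) (by positivity)]
        field_simp
        nlinarith
      · have h1 : (t : ℝ) + 1 ≤ k := by exact_mod_cast h
        rw [min_eq_left ((one_le_div h0).mpr (by linarith) : 1 ≤ ((k : ℝ) + 2) / _),
          min_eq_left ((one_le_div h0).mpr (by linarith) : 1 ≤ (k : ℝ) / _),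
          min_eq_left ((one_le_div h0).mpr (by linarith) : 1 ≤ ((k : ℝ) + 1) / (t + 1))]
        exact (min_le_left _ _).trans_eq (by norm_num)

lemma cyl_meas (D : Finset ℤ) (w : ℤ → A) : MeasurableSet (cyl D w) := by
  unfold cyl; measurability

lemma cyl_Φ (μ : ProbabilityMeasure (ℤ → A)) (D : Finset ℤ) (w : ℤ → A) :
    (Φ μ : Measure (ℤ → A)).real (cyl D w) = (μ : Measure (ℤ → A)).real
      {x | ∀ i ∈ D, g x i = (w i).1} * C.real {c | ∀ i ∈ D, c i = (w i).2} := by
  rw [← measureReal_prod_prod, Φ, ProbabilityMeasure.coe_mk, map_measureReal_apply T_meas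
    (cyl_meas D w)]
  congr 1
  ext p
  simp [cyl, T, Prod.ext_iff, forall_and]

/-- the invariant law -/
noncomputable def π₀ : ProbabilityMeasure (ℤ → A) := Φ (diracProba fun _ => (false, false))

lemma close (μ : ProbabilityMeasure (ℤ → A)) (D : Finset ℤ) (w : ℤ → A) :
    |(Φ μ : Measure (ℤ → A)).real (cyl D w) - (π₀ : Measure (ℤ → A)).real (cyl D w)| ≤
      ∑ i ∈ D, (μ : Measure (ℤ → A)).real (S i (i + (1 : ℕ))) := by
  rw [π₀, cyl_Φ, cyl_Φ, ← sub_mul, abs_mul]
  refine (mul_le_of_le_one_right (abs_nonneg _) (by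
    rw [abs_of_nonneg measureReal_nonneg]; exact measureReal_le_one)).trans
      (le_trans ?_ (measureReal_biUnion_finset_le _ _))
  have hm : MeasurableSet {x | ∀ i ∈ D, g x i = (w i).1} := by
    have := g_meas
    measurability
  simp only [diracProba, ProbabilityMeasure.coe_mk, Measure.real, Measure.dirac_apply' _ hm]
  have h1 : ∀ x ∉ ⋃ i ∈ D, S i (i + (1 : ℕ)), ∀ i ∈ D, g x i = false := fun x hx i hi => by
    by_contra h
    exact hx (mem_biUnion hi ⟨i, le_rfl, by omega, by simpa using h⟩)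
  by_cases h : ∀ i ∈ D, false = (w i).1
  · rw [indicator_of_mem (by exact h), Pi.one_apply, ENNReal.toReal_one, abs_sub_comm,
      ← Measure.real, ← probReal_compl_eq_one_sub hm, abs_of_nonneg measureReal_nonneg]
    exact measureReal_mono (compl_subset_comm.mp fun x hx i hi => (h1 x hx i hi).trans (h i hi))
      (measure_ne_top _ _)
  · rw [indicator_of_notMem (by exact h), ENNReal.toReal_zero, sub_zero,
      abs_of_nonneg ENNReal.toReal_nonneg]
    refine measureReal_mono (fun x hx => ?_) (measure_ne_top _ _)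
    by_contra h2
    exact h fun i hi => (h1 x h2 i hi).symm.trans (hx i hi)

lemma conv {ν : ℕ → ProbabilityMeasure (ℤ → A)} (h : ∀ D w, Tendsto (fun t =>
    (ν t : Measure (ℤ → A)).real (cyl D w)) atTop (𝓝 ((π₀ : Measure (ℤ → A)).real (cyl D w)))) :
    Tendsto ν atTop (𝓝 π₀) := by
  refine IsPiSystem.tendsto_probabilityMeasure_of_tendsto_of_mem (S := {s | ∃ D w, s = cyl D w})
    ?_ ?_ (fun u hu x hx => ?_) ?_
  · rintro _ ⟨D, w, rfl⟩ _ ⟨D', w', rfl⟩ ⟨z, h1, h2⟩
    refine ⟨D ∪ D', z, Set.ext fun x => ⟨fun hx i hi => ?_, fun hx => ⟨fun i hi =>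
      (hx i (by simp [hi])).trans (h1 i hi), fun i hi => (hx i (by simp [hi])).trans (h2 i hi)⟩⟩⟩
    rcases Finset.mem_union.mp hi with hi | hi
    exacts [(hx.1 i hi).trans (h1 i hi).symm, (hx.2 i hi).trans (h2 i hi).symm]
  · rintro _ ⟨D, w, rfl⟩
    exact cyl_meas D w
  · obtain ⟨I, v, h1, h2⟩ := isOpen_pi_iff.mp hu x hx
    exact ⟨_, ⟨I, x, rfl⟩, set_pi_mem_nhds I.finite_toSet (s := fun i => {x i}) fun _ _ => by simp,
      fun y hy => h2 fun i hi => hy i hi ▸ (h1 i hi).2⟩
  · rintro _ ⟨D, w, rfl⟩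
    exact NNReal.tendsto_coe.mp (h D w)

theorem result : ∃ (N : Finset ℤ) (f : (N → A) → PMF A)
    (Φ : ProbabilityMeasure (ℤ → A) → ProbabilityMeasure (ℤ → A)) (π : ProbabilityMeasure (ℤ → A)),
    (∀ μ, (Φ μ : Measure (ℤ → A)) = step N f μ) ∧ Φ π = π ∧ (∀ ν, Φ ν = ν → ν = π) ∧
    (∀ μ, Tendsto (fun t => Φ^[t] μ) atTop (𝓝 π)) ∧
    (∀ D w, ∀ ε : ℝ, 0 < ε → ∃ t₀, ∀ t, t₀ ≤ t → ∀ μ,
      |(Φ^[t] μ : Measure (ℤ → A)).real (cyl D w) - (π : Measure (ℤ → A)).real (cyl D w)| ≤ ε) ∧
    ∃ μ D w, ¬∃ K γ : ℝ, 0 ≤ γ ∧ γ < 1 ∧ ∀ t,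
      |(Φ^[t] μ : Measure (ℤ → A)).real (cyl D w) - (π : Measure (ℤ → A)).real (cyl D w)| ≤
        K * γ ^ t := by
  have hU : ∀ D w, ∀ ε : ℝ, 0 < ε → ∃ t₀, ∀ t, t₀ ≤ t → ∀ μ, |(Φ^[t] μ : Measure (ℤ → A)).real
      (cyl D w) - (π₀ : Measure (ℤ → A)).real (cyl D w)| ≤ ε := fun D w ε hε => by
    have h := U_lim.const_mul (D.card : ℝ)
    rw [mul_zero] at h
    obtain ⟨t₀, h1⟩ := eventually_atTop.mp (h.eventually (gt_mem_nhds hε))
    refine ⟨t₀ + 1, fun t ht μ => ?_⟩
    obtain ⟨t, rfl⟩ : ∃ s, t = s + 1 := ⟨t - 1, by omega⟩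
    rw [Function.iterate_succ_apply']
    exact (close _ D w).trans ((Finset.sum_le_sum fun i _ => upper μ t 1 i).trans
      (by simpa using (h1 t (by omega)).le))
  have hC : ∀ μ, Tendsto (fun t => Φ^[t] μ) atTop (𝓝 π₀) := fun μ => conv fun D w =>
    Metric.tendsto_atTop.mpr fun ε hε => (hU D w (ε / 2) (by positivity)).imp fun _ h t ht =>
      (h t ht μ).trans_lt (by linarith)
  have hS : ∀ l r, (diracProba (fun _ => (false, false)) : ProbabilityMeasure (ℤ → A)).toMeasure.real
      (S l r) = 0 := fun l r => by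
    simp only [diracProba, ProbabilityMeasure.coe_mk, Measure.real]
    rw [Measure.dirac_apply' _ (S_meas l r), indicator_of_notMem (by simp [S, g]),
      ENNReal.toReal_zero]
  refine ⟨{-1, 0}, fun u => (PMF.uniformOfFintype Bool).map fun c =>
    (((u ⟨0, by simp⟩).1 && !(u ⟨0, by simp⟩).2) || ((u ⟨-1, by simp⟩).1 && (u ⟨-1, by simp⟩).2), c),
    Φ, π₀, fun μ => ?_, tendsto_nhds_unique tendsto_const_nhds (conv fun D w => ?_), fun ν hν =>
      tendsto_nhds_unique (by simp only [Function.iterate_fixed hν]; exact tendsto_const_nhds)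
        (hC ν), hC, hU, diracProba fun _ => (true, false), {0}, fun _ => (true, false), ?_⟩
  · have h1 : ∀ x : ℤ → A, (Measure.infinitePi fun i => ((PMF.uniformOfFintype Bool).map fun c =>
        (g x i, c)).toMeasure) = C.map fun c => T (x, c) := fun x => by
      simp only [← PMF.toMeasure_map _ _ (measurable_of_finite _)]
      exact (Measure.infinitePi_map_pi _ (f := fun i c => (g x i, c)) fun _ =>
        measurable_of_finite _).symm
    have h2 : ∀ s, MeasurableSet s → ∀ x, (C.map fun c => T (x, c)) s = C (Prod.mk x ⁻¹' (T ⁻¹' s)) :=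
      fun s hs x => Measure.map_apply (T_meas.comp measurable_prodMk_left) hs
    simp only [step, add_zero]
    refine Measure.ext fun s hs => Eq.trans ?_ (congrArg (fun k => μ.toMeasure.bind k s)
      (funext h1)).symm
    rw [Measure.bind_apply hs (Measure.measurable_of_measurable_coe _ fun s hs => by
      simp only [h2 s hs]; exact measurable_measure_prodMk_left (T_meas hs)).aemeasurable,
      Φ, ProbabilityMeasure.coe_mk, Measure.map_apply T_meas hs, Measure.prod_apply (T_meas hs)]
    simp only [h2 s hs]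
  · have h := close π₀ D w
    rw [Finset.sum_eq_zero fun i _ => by rw [π₀, key _ (by omega)]; simp only [hS]; simp,
      abs_nonpos_iff, sub_eq_zero] at h
    rw [h]
    exact tendsto_const_nhds
  · rintro ⟨K, γ, h0, h1, h⟩
    have h2 : C.real {c | ∀ i ∈ ({0} : Finset ℤ), c i = false} = 1 / 2 := by
      rw [Measure.real, show {c : ℤ → Bool | ∀ i ∈ ({0} : Finset ℤ), c i = false} =
        Set.pi ({0} : Finset ℤ) fun _ => {false} from rfl, C,
        Measure.infinitePi_pi _ fun _ _ => .singleton _]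
      simp [PMF.uniformOfFintype_apply]
    have h3 : {x | ∀ i ∈ ({0} : Finset ℤ), g x i = true} = S 0 (0 + (1 : ℕ)) := by
      ext x
      simp only [S, Finset.mem_singleton, forall_eq, mem_ofPred_eq]
      exact ⟨fun h => ⟨0, le_rfl, by simp, h⟩, fun ⟨j, h1, h2, h⟩ => (by omega : j = 0) ▸ h⟩
    have h4 := ((tendsto_self_mul_const_pow_of_lt_one h0 h1).const_mul K).comp
      (tendsto_add_atTop_nat 1)
    rw [mul_zero] at h4
    obtain ⟨t, ht⟩ := (h4.eventually (gt_mem_nhds one_half_pos)).exists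
    have h5 := h (t + 1)
    have h6 := lower t 1 0
    have h7 : (0 : ℝ) < t + 1 := by positivity
    rw [Function.iterate_succ_apply', π₀, cyl_Φ, cyl_Φ, h2, h3, hS, zero_mul, sub_zero] at h5
    rw [Nat.cast_one, min_eq_right ((div_le_one h7).mpr (by simp)), div_le_iff₀ h7] at h6
    simp only [Function.comp, Nat.cast_add, Nat.cast_one] at ht h5 h6
    have h8 := mul_le_mul_of_nonneg_right ((le_abs_self _).trans h5) h7.le
    rw [mul_right_comm] at h8
    linarith [(mul_le_mul_of_nonneg_right h6 one_half_pos.le).trans h8]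

end Pool.Agent.Results.MP_37af32_pr.Coalescing
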